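import Pool.Agent.R537.SJ.Main

/-!
# Surjectivity of integer polynomial maps `ℝⁿ → ℝᵐ` is `∀∃ℝ`-hard

Sketch of the proof.  A sentence `∀ x ∃ y, φ` is first written as `∀ x ∃ v, F(x, v) = 0`, where `F`
is the sum of the squares of the equations of a system of constraints `v_i = 1`,
`v_i + v_j = v_k`, `v_i v_j = v_k`.  The map `(p, q, s) ↦ (1 + p q, q + s (1 + p q))` is a
polynomial map of `ℝ³` onto the punctured plane (it is the first column of a product of three
elementary matrices).  Hence the polynomial map

  `(x, v, p, q, s, u) ↦ (x, (1 + p q) (F(x,v) + u²), (q + s (1 + p q)) (F(x,v) + u²))`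

takes every value `(x, a, b)` with `(a, b) ≠ (0, 0)` (use `u = 1`), and it takes the value
`(x, 0, 0)` if and only if `F(x, v) = 0` for some `v`.  So it is surjective if and only if the
sentence is true.  Its components have degree at most `7`.
-/

namespace Pool.Agent.Results.MP_e38cae_lc.SurjectivityFullSpaceHard

open Pool.Agent.NPC Pool.Agent.NPC.ER Pool.Agent.NPC.R537SJ

/-- The surjectivity problem for integer polynomial maps `ℝⁿ → ℝᵐ` is `∀∃ℝ`-hard, and it remains
so for maps whose components have total degree at most `7`. -/
theorem result : AERHard (lang Surjectivity) ∧ AERHardWithin DegreeLe7 Surjectivity :=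
  ⟨Pool.Agent.NPC.R537SJ.AERHardWithin.toAERHard surj_hard, surj_hard⟩

end Pool.Agent.Results.MP_e38cae_lc.SurjectivityFullSpaceHard
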